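import Pool.Agent.Lib.MP_69a69c_lc.Hash

/-!
# MP_69a69c_lc: sparse sets that are hard for NP under Boolean combinations of systems of
polynomial congruences
-/

namespace Pool.Agent.Results.MP_69a69c_lc.ModularReductions

open Pool.Agent.SparseNP

/-- If `S` is a sparse language, `τ` any tally advice, and every language in NP is reducible to
`(S, τ)` by bounded Boolean combinations of systems of conditions `P(τ) ≡ 0 (mod p) or Y ∩ S ≠ ∅`
(`P` of bounded degree, `Y` of bounded size, `p` a polynomially bounded prime), then P = NP. -/
theorem result (S : Set (List Bool)) (hS : Sparse S) (τ : ℕ → ℤ)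
    (h : ∀ L : Set (List Bool), InNP L → ReducibleTo S τ L) :
    ∀ L : Set (List Bool), InNP L → InP L :=
  main_sparse hS τ h

end Pool.Agent.Results.MP_69a69c_lc.ModularReductions
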