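import Mathlib
import Pool.Agent.Lib.MP_69a69c_lc_ORA.Main

/-!
Lower bounds for the computation of an NP-complete problem with few queries to a sparse set.

A `Circuit V s` is an oracle circuit with `s` gates: AND gates and OR gates of unbounded fan-in, NOT
gates, and oracle gates, which ask an oracle `S`, a set of words, for the word formed by the values
of their wires. Circuits of polynomial size of this kind are the nonuniform version of Cook
reductions to `S`. `census S m` is the number of words of length `m` in `S`, and `chainLength S m`
is the largest number of words of length `m` in `S` any two of which are comparable bitwise; it is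
at most `1` if different words of `S` of the same length are incomparable, for instance if all words
of `S` have the form `w w'` where `w'` is the bitwise complement of `w`. `D.weight S` is the sum,
over all sets of NOT gates and oracle gates any two of which are joined by a path in `D`, of the
products of the weights of these gates, the weight of a NOT gate being `1` and that of an oracle
gate which asks for words of length `m` being `chainLength S m`.

The theorem gives families `P` and `Q` of graphs, with and without a clique of more than `√n`
vertices, such that no small circuit with any oracle `S` which is sparse distinguishes them with an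
advantage exceeding `weight / n²`, up to a polylogarithmic factor.
-/

namespace Pool.Agent.Results.MP_69a69c_lc.SparseOracleCircuits

open Pool.Agent.OracleClique
open Pool.Agent.CliqueModules (EdgeVar HasClique)

/-- There is a constant `C` such that, for all `n`, `R` and `c` with
`C (log₂ (n R (c + 1)) + 1) ^ 8 ≤ n`, there are a family `P` of graphs with a clique of more than
`√n` vertices and a family `Q` of graphs without one, such that for every oracle `S` and every
oracle circuit `D` with at most `R` gates, all of whose queries have lengths `m` for which `S` has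
at most `c` words of length `m`,
`(Pr[D accepts P] - Pr[D accepts Q]) n² ≤ C · weight · (log₂ (n R (c + 1)) + 1) ^ 8`. -/
theorem result : ∃ C : ℕ, ∀ n R c : ℕ, C * (Nat.log 2 (n * R * (c + 1)) + 1) ^ 8 ≤ n →
    ∃ (N : ℕ) (P Q : Fin N → SimpleGraph (Fin n)),
      0 < N ∧ (∀ i, HasClique (P i)) ∧ (∀ i, ¬ HasClique (Q i)) ∧
      ∀ s ≤ R, ∀ (S : Set (List Bool)) (D : Circuit (EdgeVar n) s),
        (∀ i m q, D.gate i = Gate.query m q → census S m ≤ c) →
        (D.acceptProb S P - D.acceptProb S Q) * n ^ 2 ≤
          C * D.weight S * (Nat.log 2 (n * R * (c + 1)) + 1) ^ 8 :=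
  oracle_main

open Classical in
/-- If words of `S` of the same length are incomparable, the weight is at most `2 ^ h`, where `h` is
the number of NOT gates and oracle gates. -/
theorem weight_le {V : Type} {s : ℕ} (D : Circuit V s) (S : Set (List Bool))
    (hS : ∀ m, chainLength S m ≤ 1) :
    D.weight S ≤ 2 ^ {i : Fin s |
      (∃ w, D.gate i = Gate.not w) ∨ ∃ m q, D.gate i = Gate.query m q}.ncard := by
  set H : Finset (Fin s) := Finset.univ.filter fun i : Fin s =>
      (∃ w, D.gate i = Gate.not w) ∨ ∃ m q, D.gate i = Gate.query m q with hH
  have hcard : {i : Fin s |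
      (∃ w, D.gate i = Gate.not w) ∨ ∃ m q, D.gate i = Gate.query m q}.ncard = H.card := by
    rw [← Set.ncard_coe_finset, hH, Finset.coe_filter]
    simp only [Finset.mem_univ, true_and]
  rw [hcard]
  have h1 : ∀ i, (D.gate i).weight S ≤ if i ∈ H then 1 else 0 := by
    intro i
    cases hg : D.gate i with
    | and J => exact Nat.zero_le _
    | or J => exact Nat.zero_le _
    | not w =>
      have : i ∈ H := Finset.mem_filter.2 ⟨Finset.mem_univ _, Or.inl ⟨w, hg⟩⟩
      rw [if_pos this]
      exact le_rfl
    | query m q =>
      have : i ∈ H := Finset.mem_filter.2 ⟨Finset.mem_univ _, Or.inr ⟨m, q, hg⟩⟩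
      rw [if_pos this]
      exact hS m
  have h2 : ∀ i : Fin s, (1 + (if i ∈ H then 1 else 0)) = (if i ∈ H then 2 else 1) := by
    intro i
    split_ifs <;> rfl
  have h3 : ∑ A ∈ (Finset.univ : Finset (Fin s)).powerset, (∏ i ∈ A, (D.gate i).weight S)
      ≤ ∑ A ∈ (Finset.univ : Finset (Fin s)).powerset, (∏ i ∈ A, (if i ∈ H then 1 else 0)) :=
    Finset.sum_le_sum fun A _ => Finset.prod_le_prod' fun i _ => h1 i
  have h4 : ∑ A ∈ (Finset.univ : Finset (Fin s)).powerset, (∏ i ∈ A, (if i ∈ H then 1 else 0))
      = 2 ^ H.card := by
    rw [← Finset.prod_one_add, Finset.prod_congr rfl (fun i _ => h2 i), Finset.prod_ite_mem,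
      Finset.univ_inter, Finset.prod_const]
  unfold Circuit.weight
  exact (Finset.sum_le_sum_of_subset (Finset.filter_subset _ _)).trans (h3.trans h4.le)

/-- The worst-case consequence for the number of NOT gates and oracle gates: with an oracle which
has few words of each length, which are incomparable, a small circuit which decides whether a graph
has a clique of more than `√n` vertices needs many NOT gates and oracle gates. -/
theorem few_queries : ∃ C : ℕ, ∀ (n s c : ℕ) (S : Set (List Bool)) (D : Circuit (EdgeVar n) s),
    (∀ m, census S m ≤ c) → (∀ m, chainLength S m ≤ 1) →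
    (∀ G : SimpleGraph (Fin n), D.Accepts S G ↔ HasClique G) →
    C * (Nat.log 2 (n * s * (c + 1)) + 1) ^ 8 ≤ n →
    n ^ 2 ≤ C * 2 ^ {i : Fin s |
      (∃ w, D.gate i = Gate.not w) ∨ ∃ m q, D.gate i = Gate.query m q}.ncard *
      (Nat.log 2 (n * s * (c + 1)) + 1) ^ 8 := by
  classical
  obtain ⟨C, hC⟩ := result
  refine ⟨C, ?_⟩
  intro n s c S D hc hS hD hn
  obtain ⟨N, P, Q, hN, hP, hQ, h⟩ := hC n s c hn
  have h1 : D.acceptProb S P = 1 := by
    have : (Finset.univ.filter fun i => D.Accepts S (P i)) = Finset.univ :=
      Finset.filter_true_of_mem fun i _ => (hD _).2 (hP i)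
    unfold Circuit.acceptProb
    rw [this, Finset.card_univ, Fintype.card_fin]
    have hN' : (N : ℝ) ≠ 0 := by exact_mod_cast hN.ne'
    exact div_self hN'
  have h2 : D.acceptProb S Q = 0 := by
    have : (Finset.univ.filter fun i => D.Accepts S (Q i)) = ∅ :=
      Finset.filter_false_of_mem fun i _ hc => hQ i ((hD _).1 hc)
    unfold Circuit.acceptProb
    rw [this]
    simp
  have h3 := h s le_rfl S D (fun i m q _ => hc m)
  rw [h1, h2, sub_zero, one_mul] at h3
  have h4 : n ^ 2 ≤ C * D.weight S * (Nat.log 2 (n * s * (c + 1)) + 1) ^ 8 := by
    exact_mod_cast h3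
  exact h4.trans (Nat.mul_le_mul_right _ (Nat.mul_le_mul_left _ (weight_le D S hS)))

end Pool.Agent.Results.MP_69a69c_lc.SparseOracleCircuits
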