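import Pool.Agent.Lib.MP_69a69c_lc_FP.StackSim
import Pool.Agent.Lib.MP_b573ec_lc_ST.LinUpper
import Pool.Agent.Lib.MP_b573ec_lc_ST.LinLower

/-!
# No sparse set is complete for NP under Cook reductions by stack machines with few passes

Stack programs with a query tape: nonuniform machines with `w` states, a stack and a write-only
query tape.  The height of the stack, the number of moves and the number of queries are not bounded
(without bound for the passes over the input the polynomial width machines of this kind are at least
as strong as polynomial time machines, Cook 1971), but the input head makes only `p` passes over the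
input, from one end to the other.

The explicit language `langC` is accepted, for every input length `n`, by a nondeterministic program
which has neither stack nor oracle, reads every variable once, in the fixed order `x_1, ..., x_n`,
and has width at most `C * n`.  But for all `n, p, S` with `n ≤ 2 ^ S` and `C * p * S ≤ n`, for
every oracle `A` with at most `2 ^ S` words of each length, and for all widths `w ≤ 2 ^ S`, it has
no deterministic stack program with `p` passes and width `w` which asks `A` about words of at most
`2 ^ S` letters, and its complement has not even a nondeterministic one.  Without a bound for the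
number of words of the oracle one pass and two states are enough (third part).

Proof: instead of the query tape the simulating stack program (without oracle) keeps the node of the
trie of the oracle; three blocks of the input and the number-on-the-forehead lower bound of Babai,
Nisan and Szegedy for cylinder intersections give the bound for stack programs without oracle.
-/

set_option autoImplicit false

namespace Pool.Agent.Results.MP_69a69c_lc.SparseStackPasses

open Pool.Agent.LT Pool.Agent.ST Pool.Agent.StackO

/-- the words of all lengths accepted by a family of functions -/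
def oracleOf (f : ∀ n, Inp n → Bool) : Set (List Bool) :=
  {q | ∃ (n : ℕ) (x : Inp n), q = List.ofFn x ∧ f n x = true}

/-- copy the input to the query tape and ask -/
def copyProg (n : ℕ) : OStackProg n 1 2 where
  forward _ := true
  start := 0
  write _ _ _ _ b := some b
  ask _ i _ _ _ := decide ((i : ℕ) + 1 = n)
  move _ _ _ _ _ r := .next (if r then 1 else 0)
  acc s := decide (s = 1)

theorem take_ofFn {n : ℕ} (x : Inp n) (i : ℕ) (h : i < n) :
    (List.ofFn x).take i ++ [x ⟨i, h⟩] = (List.ofFn x).take (i + 1) := by
  have h2 : i < (List.ofFn x).length := by simpa using h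
  rw [List.take_succ_eq_append_getElem h2, List.getElem_ofFn]

theorem cell_eq {n : ℕ} (i : ℕ) (h : i < n) (h' : i < 1 * n) :
    cell (copyProg n).forward (⟨i, h'⟩ : Fin (1 * n)) = ⟨i, h⟩ := by
  apply Fin.ext
  unfold cell
  simp [copyProg, Fin.modNat, Nat.mod_eq_of_lt h]

theorem copy_step {n : ℕ} (A : Set (List Bool)) (x : Inp n) (c : OConf 2) (h : c.conf.pos < n)
    (h0 : c.conf.stack = []) :
    (copyProg n).step A n x c = ⟨⟨c.conf.pos + 1, if reply A n (decide (c.conf.pos + 1 = n))
      (c.tape ++ [x ⟨c.conf.pos, h⟩]) then 1 else 0, []⟩,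
      rest (decide (c.conf.pos + 1 = n)) (c.tape ++ [x ⟨c.conf.pos, h⟩])⟩ := by
  have h' : c.conf.pos < 1 * n := by omega
  unfold OStackProg.step
  rw [dif_pos h']
  simp only
  rw [cell_eq _ h h']
  simp [copyProg, Conf.after, h0]

theorem config_copyProg {n : ℕ} (A : Set (List Bool)) (x : Inp n) (i : ℕ) (hi : i < n) :
    (copyProg n).config A n x i = ⟨⟨i, 0, []⟩, (List.ofFn x).take i⟩ := by
  induction i with
  | zero => simp [OStackProg.config, copyProg]
  | succ i ih =>
    have h : i < n := by omega
    have e : (copyProg n).config A n x (i + 1) =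
        (copyProg n).step A n x ((copyProg n).config A n x i) := by
      unfold OStackProg.config
      rw [Function.iterate_succ_apply']
    have h2 : ¬ (i + 1 = n) := by omega
    rw [e, ih h, copy_step A x _ h rfl]
    simp [reply, rest, h2, take_ofFn x i h]

theorem detO_oracleOf (f : ∀ n, Inp n → Bool) (n : ℕ) (hn : 1 ≤ n) :
    StackDetO (oracleOf f) n (f n) 1 2 := by
  refine ⟨copyProg n, fun x => ⟨n, ?_⟩⟩
  obtain ⟨m, rfl⟩ : ∃ m, n = m + 1 := ⟨n - 1, by omega⟩
  have e : (copyProg (m + 1)).config (oracleOf f) (m + 1) x (m + 1) =
      (copyProg (m + 1)).step (oracleOf f) (m + 1) x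
        ((copyProg (m + 1)).config (oracleOf f) (m + 1) x m) := by
    unfold OStackProg.config
    rw [Function.iterate_succ_apply']
  have h3 : (List.ofFn x).take m ++ [x ⟨m, Nat.lt_succ_self m⟩] = List.ofFn x :=
    (take_ofFn x m _).trans (List.take_of_length_le (by simp))
  have h4 : List.ofFn x ∈ oracleOf f ↔ f (m + 1) x = true := by
    constructor
    · rintro ⟨k, y, h5, h6⟩
      have h7 : k = m + 1 := by
        have := congrArg List.length h5
        simpa using this.symm
      subst h7
      have h8 : x = y := List.ofFn_injective h5
      rw [h8]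
      exact h6
    · intro h5
      exact ⟨m + 1, x, rfl, h5⟩
  rw [e, config_copyProg _ _ _ (Nat.lt_succ_self m), copy_step _ _ _ (Nat.lt_succ_self m) rfl]
  refine ⟨by simp, ?_⟩
  simp only [h3, reply, h4, decide_true, Bool.true_and, List.length_ofFn, le_refl, and_true]
  cases f (m + 1) x <;> simp [copyProg]

theorem result : ∃ C : ℕ, (∀ n ≥ 1, ∃ w ≤ C * n, NondetOnePass (langC n) w) ∧
    (∀ (A : Set (List Bool)) (n p S w : ℕ), AtMostPerLength A (2 ^ S) → 1 ≤ p → 1 ≤ S →
      n ≤ 2 ^ S → w ≤ 2 ^ S → C * p * S ≤ n →
      ¬ StackDetO A (2 ^ S) (langC n) p w ∧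
        ¬ StackNondetO A (2 ^ S) (fun x => !langC n x) p w) ∧
    ∃ A : Set (List Bool), ∀ n ≥ 1, StackDetO A n (langC n) 1 2 := by
  obtain ⟨C1, h1⟩ := upperC
  obtain ⟨C2, h2⟩ := lowerC
  refine ⟨C1 + 7 * C2, fun n hn => ?_, fun A n p S w hA hp hS hn hw hC => ?_,
    oracleOf langC, fun n hn => detO_oracleOf langC n hn⟩
  · obtain ⟨w, hw, h3⟩ := h1 n hn
    exact ⟨w, hw.trans (Nat.mul_le_mul_right _ (Nat.le_add_right _ _)), h3⟩
  · have h3 : n ≤ 2 ^ (7 * S) := hn.trans (Nat.pow_le_pow_right (by norm_num) (by omega))
    have h4 : C2 * p * (7 * S) ≤ n := by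
      calc C2 * p * (7 * S) = 7 * C2 * p * S := by ring
        _ ≤ (C1 + 7 * C2) * p * S :=
            Nat.mul_le_mul_right _ (Nat.mul_le_mul_right _ (Nat.le_add_left _ _))
        _ ≤ n := hC
    constructor
    · intro h5
      obtain ⟨w', h6, h7⟩ := stackDet_of_O hA le_rfl hS hw h5
      exact (h2 n p (7 * S) w' hp (by omega) h3 h6 h4).2 h7
    · intro h5
      obtain ⟨w', h6, h7⟩ := stackNondet_of_O hA le_rfl hS hw h5
      exact (h2 n p (7 * S) w' hp (by omega) h3 h6 h4).1 h7

end Pool.Agent.Results.MP_69a69c_lc.SparseStackPasses
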