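import Pool.Agent.Lib.MP_69a69c_lc_FP.ReadSim
import Pool.Agent.Lib.MP_b573ec_lc_SR.Final

/-!
# No sparse set is complete for NP under Cook reductions by stack machines with few readings

Read programs with a query tape: nonuniform auxiliary pushdown machines with `w` states, random
access to the `n` bits of the input, a stack and a write-only query tape.  The height of the stack,
the number of moves and the number of queries are not bounded, only the number `T` of readings of
bits of the input.  (With polynomial width and without bound for the number of readings machines of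
this kind are at least as strong as polynomial time machines, Cook 1971.)

The explicit language `langNP` is accepted, for every input length `n`, by a nondeterministic
program without stack and oracle which reads every variable once, in the fixed order
`x_1, ..., x_n`, and has width at most `C * n ^ 10`; but it is not decided by read programs which
ask, about words of at most `2 ^ S` letters, any oracle with at most `2 ^ S` words of each length,
neither deterministic nor randomized with two-sided error `1/3` or one-sided error `1/2`, with at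
most `2 ^ S` states and `T` readings of input bits, whenever `C * S * 4 ^ h ≤ n`, `C ≤ h` and
`C * T ^ 2 * (log2 h) ^ 3 ≤ n ^ 2 * h`.  Without a bound for the number of words of the oracle two
states and `n + 1` readings are enough (third part).
-/

set_option autoImplicit false

namespace Pool.Agent.Results.MP_69a69c_lc.SparseStackReads

open Pool.Agent.LT Pool.Agent.ST Pool.Agent.StackO Pool.Agent.ReadO

/-- the words of all lengths accepted by a family of functions -/
def oracleOf (f : ∀ n, Inp n → Bool) : Set (List Bool) :=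
  {q | ∃ (n : ℕ) (x : Inp n), q = List.ofFn x ∧ f n x = true}

/-- copy the input to the query tape and ask; the state is the last bit read, the last reading is
not used -/
def copyProg (n : ℕ) (hn : 1 ≤ n) : OReadProg n (n + 1) 2 where
  start := 0
  write k q _ := if (k : ℕ) = 0 then none else some (decide (q = 1))
  ask k _ _ := decide ((k : ℕ) = n)
  move k _ _ r := if h : (k : ℕ) < n then .read ⟨k, h⟩ fun b => if b then 1 else 0
    else .read ⟨0, hn⟩ fun _ => if r then 1 else 0
  acc s := decide (s = 1)

theorem take_ofFn {n : ℕ} (x : Inp n) (i : ℕ) (h : i < n) :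
    (List.ofFn x).take i ++ [x ⟨i, h⟩] = (List.ofFn x).take (i + 1) := by
  have h2 : i < (List.ofFn x).length := by simpa using h
  rw [List.take_succ_eq_append_getElem h2, List.getElem_ofFn]

theorem config_succ {n T w : ℕ} (P : OReadProg n T w) (A : Set (List Bool)) (M : ℕ) (x : Inp n)
    (k : ℕ) : P.config A M x (k + 1) = P.step A M x (P.config A M x k) := by
  unfold OReadProg.config
  rw [Function.iterate_succ_apply']

theorem config_copyProg {n : ℕ} (hn : 1 ≤ n) (A : Set (List Bool)) (x : Inp n) (i : ℕ)
    (hi : i < n) :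
    (copyProg n hn).config A n x (i + 1) =
      ⟨⟨i + 1, if x ⟨i, hi⟩ then 1 else 0, []⟩, (List.ofFn x).take i⟩ := by
  induction i with
  | zero =>
    rw [config_succ]
    have e : (copyProg n hn).config A n x 0 = ⟨⟨0, 0, []⟩, []⟩ := rfl
    rw [e]
    unfold OReadProg.step
    rw [dif_pos (show (0 : ℕ) < n + 1 by omega)]
    have h0 : ¬ (0 = n) := by omega
    simp [copyProg, after, rest, reply, h0, hi]
  | succ i ih =>
    have h : i < n := by omega
    rw [config_succ, ih h]
    unfold OReadProg.step
    rw [dif_pos (show i + 1 < n + 1 by omega)]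
    have h0 : ¬ (i + 1 = n) := by omega
    have h1 := take_ofFn x i h
    simp only [copyProg, after, rest, reply, h0, hi, decide_false, Bool.false_and,
      Bool.false_eq_true, if_false, dif_pos, Nat.add_eq_zero_iff, one_ne_zero, and_false,
      Option.toList_some]
    congr 1
    rw [← h1]
    cases x ⟨i, h⟩ <;> simp

theorem detO_oracleOf (f : ∀ n, Inp n → Bool) (n : ℕ) (hn : 1 ≤ n) :
    ReadsDetO (oracleOf f) n (f n) (n + 1) 2 := by
  refine ⟨copyProg n hn, fun x => ⟨n + 1, ?_⟩⟩
  obtain ⟨m, rfl⟩ : ∃ m, n = m + 1 := ⟨n - 1, by omega⟩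
  have h3 : (List.ofFn x).take m ++ [x ⟨m, Nat.lt_succ_self m⟩] = List.ofFn x :=
    (take_ofFn x m _).trans (List.take_of_length_le (by simp))
  have h4 : List.ofFn x ∈ oracleOf f ↔ f (m + 1) x = true := by
    constructor
    · rintro ⟨k, y, h5, h6⟩
      have h7 : k = m + 1 := by
        have := congrArg List.length h5
        simpa using this.symm
      subst h7
      have h8 : x = y := List.ofFn_injective h5
      rw [h8]
      exact h6
    · intro h5
      exact ⟨m + 1, x, rfl, h5⟩
  have e1 : (copyProg (m + 1) hn).config (oracleOf f) (m + 1) x (m + 1 + 1) =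
      ⟨⟨m + 1 + 1, if f (m + 1) x then 1 else 0, []⟩, []⟩ := by
    rw [config_succ, config_copyProg hn _ x m (Nat.lt_succ_self m)]
    unfold OReadProg.step
    rw [dif_pos (show m + 1 < m + 1 + 1 by omega)]
    have h5 : (List.ofFn x).take m ++ [decide ((if x ⟨m, Nat.lt_succ_self m⟩ then (1 : Fin 2)
        else 0) = 1)] = List.ofFn x := by
      rw [← h3]
      congr 2
      cases x ⟨m, Nat.lt_succ_self m⟩ <;> simp
    have h6 : reply (oracleOf f) (m + 1) true (List.ofFn x) = f (m + 1) x := by
      unfold reply
      rw [h4]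
      cases f (m + 1) x <;> simp
    simp only [copyProg, after, lt_irrefl, dif_neg, not_false_eq_true, Nat.add_eq_zero_iff,
      one_ne_zero, and_false, if_false, Option.toList_some, decide_true]
    rw [h5, h6]
    simp [rest]
  rw [e1]
  refine ⟨rfl, ?_⟩
  cases f (m + 1) x <;> simp [copyProg]

theorem result : ∃ C : ℕ, (∀ n ≥ 1, ∃ w ≤ C * n ^ 10, NondetOnePass (langNP n) w) ∧
    (∀ (A : Set (List Bool)) (n S h T w : ℕ), AtMostPerLength A (2 ^ S) → 1 ≤ S → C ≤ h →
      C * S * 4 ^ h ≤ n → C * T ^ 2 * Nat.log 2 h ^ 3 ≤ n ^ 2 * h → w ≤ 2 ^ S →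
      ¬ ReadsDetO A (2 ^ S) (langNP n) T w ∧ ¬ ReadsTwoSidedO A (2 ^ S) (langNP n) T w ∧
        ¬ ReadsOneSidedO A (2 ^ S) (langNP n) T w) ∧
    ∃ A : Set (List Bool), ∀ n ≥ 1, ReadsDetO A n (langNP n) (n + 1) 2 := by
  obtain ⟨C, h1, h2⟩ := Pool.Agent.SR.resultNP
  refine ⟨C + 7, ?_, ?_, oracleOf langNP, fun n hn => detO_oracleOf langNP n hn⟩
  · intro n hn
    obtain ⟨w, hw1, hw2⟩ := h1 n hn
    exact ⟨w, hw1.trans (Nat.mul_le_mul_right _ (Nat.le_add_right _ _)), hw2⟩
  · intro A n S h T w hA hS hC hn hT hw
    have hn1 : 7 * S * 4 ^ h ≤ n :=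
      (Nat.mul_le_mul_right _ (Nat.mul_le_mul_right _ (Nat.le_add_left _ _))).trans hn
    have hT1 : C * T ^ 2 * Nat.log 2 h ^ 3 ≤ n ^ 2 * h :=
      (Nat.mul_le_mul_right _ (Nat.mul_le_mul_right _ (Nat.le_add_right _ _))).trans hT
    have key : ∀ w' ≤ 2 ^ (7 * S), ¬ Pool.Agent.SR.ReadsTwoSided (langNP n) T w' ∧
        ¬ Pool.Agent.SR.ReadsOneSided (langNP n) T w' := fun w' hw' =>
      h2 n (7 * S) h T w' (by omega) (by omega) hn1 hT1 hw'
    refine ⟨fun h5 => ?_, fun h5 => ?_, fun h5 => ?_⟩
    · obtain ⟨w', h6, h7⟩ := readsTwoSided_of_O hA le_rfl hS hw (twoSidedO_of_detO h5)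
      exact (key w' h6).1 h7
    · obtain ⟨w', h6, h7⟩ := readsTwoSided_of_O hA le_rfl hS hw h5
      exact (key w' h6).1 h7
    · obtain ⟨w', h6, h7⟩ := readsOneSided_of_O hA le_rfl hS hw h5
      exact (key w' h6).2 h7

end Pool.Agent.Results.MP_69a69c_lc.SparseStackReads
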