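import Pool.Agent.Lib.MP_69a69c_lc_TS.Simulate
import Pool.Agent.Lib.MP_b573ec_lc_LT.V2.LangFinal

/-!
# No sparse set is complete for NP under Cook reductions of bounded space with few readings

Oracle programs: nonuniform space `log2 w`, with a write-only query tape which is not counted as
space. The explicit language `langNP` is accepted, for every input length `n`, by a
nondeterministic program without oracle which reads every variable once, in the fixed order
`x_1, ..., x_n`, and has width at most `C * n ^ 10`; but it is not decided by oracle programs with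
any oracle which has at most `2 ^ S` words of each length, neither deterministic nor randomized
with two-sided error `1/3` or one-sided error `1/2`, with at most `2 ^ S` steps (of any kind, with
arbitrarily many queries), at most `2 ^ S` states and at most `T` readings of input bits, whenever
`C * S * 4 ^ h ≤ n`, `C ≤ h` and `C * T ^ 2 * (log2 h) ^ 3 ≤ n ^ 2 * h`. Without a bound for the
number of words of the oracle two states and `n` steps are enough (third part).

Proof: instead of the query tape the simulating program (without oracle) keeps the node of the trie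
of the oracle, and the steps which do not read the input are compressed.
-/

set_option autoImplicit false

namespace Pool.Agent.Results.MP_69a69c_lc.SparseTimeSpace

open Pool.Agent.LT Pool.Agent.SparseTS

/-- the words of all lengths accepted by a family of functions -/
def oracleOf (f : ∀ n, Inp n → Bool) : Set (List Bool) :=
  {q | ∃ (n : ℕ) (x : Inp n), q = List.ofFn x ∧ f n x = true}

/-- copy the input to the query tape and ask -/
def copyProg (n : ℕ) : OProg n n 2 where
  start := 0
  var := fun i _ => some i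
  write := fun _ _ b => some b
  ask := fun i _ _ => decide ((i : ℕ) + 1 = n)
  next := fun _ _ _ a => if a then 1 else 0
  acc := fun s => decide (s = 1)

theorem take_ofFn {n : ℕ} (x : Inp n) (i : ℕ) (h : i < n) :
    (List.ofFn x).take i ++ [x ⟨i, h⟩] = (List.ofFn x).take (i + 1) := by
  have h2 : i < (List.ofFn x).length := by simpa using h
  rw [List.take_succ_eq_append_getElem h2, List.getElem_ofFn]

theorem config_copyProg {n : ℕ} (A : Set (List Bool)) (x : Inp n) (i : ℕ) (hi : i < n) :
    (copyProg n).config A x i = (0, (List.ofFn x).take i) := by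
  classical
  induction i with
  | zero => simp [OProg.config, copyProg]
  | succ i ih =>
    have h : i < n := by omega
    have e : (copyProg n).config A x (i + 1) =
        (copyProg n).step A ⟨i, h⟩ (readVal x ((copyProg n).var ⟨i, h⟩
          ((copyProg n).config A x i).1)) ((copyProg n).config A x i) := dif_pos h
    rw [e, ih h]
    have h2 : ¬ (i + 1 = n) := by omega
    have h3 := take_ofFn x i h
    simp [OProg.step, copyProg, readVal, h2, h3]

theorem detO_oracleOf (f : ∀ n, Inp n → Bool) (n : ℕ) (hn : 1 ≤ n) :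
    DetO (oracleOf f) (f n) n n 2 := by
  classical
  refine ⟨copyProg n, fun x => ?_, fun x => ?_⟩
  · unfold OProg.reads
    exact (Finset.card_filter_le _ _).trans (by simp)
  obtain ⟨m, rfl⟩ : ∃ m, n = m + 1 := ⟨n - 1, by omega⟩
  have e : (copyProg (m + 1)).config (oracleOf f) x (m + 1) =
      (copyProg (m + 1)).step (oracleOf f) ⟨m, Nat.lt_succ_self m⟩
        (readVal x ((copyProg (m + 1)).var ⟨m, Nat.lt_succ_self m⟩
          ((copyProg (m + 1)).config (oracleOf f) x m).1))
        ((copyProg (m + 1)).config (oracleOf f) x m) := dif_pos (Nat.lt_succ_self m)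
  have h3 : (List.ofFn x).take m ++ [x ⟨m, Nat.lt_succ_self m⟩] = List.ofFn x :=
    (take_ofFn x m _).trans (List.take_of_length_le (by simp))
  have h4 : List.ofFn x ∈ oracleOf f ↔ f (m + 1) x = true := by
    constructor
    · rintro ⟨k, y, h5, h6⟩
      have h7 : k = m + 1 := by
        have := congrArg List.length h5
        simpa using this.symm
      subst h7
      have h8 : x = y := List.ofFn_injective h5
      rw [h8]
      exact h6
    · intro h5
      exact ⟨m + 1, x, rfl, h5⟩
  unfold OProg.eval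
  rw [e, config_copyProg _ _ _ (Nat.lt_succ_self m)]
  simp only [OProg.step, copyProg, readVal, Option.toList, decide_true, if_true, h3, h4]
  cases f (m + 1) x <;> simp

/-- the arithmetic of the simulation -/
theorem width_le {S M w : ℕ} (hS : 1 ≤ S) (hM : M ≤ 2 ^ S) (hw : w ≤ 2 ^ S) :
    (M + 1) * (w * (2 ^ S * (M + 1) ^ 2 + 1)) ≤ 2 ^ (9 * S) := by
  have h1 : 2 ≤ 2 ^ S := by
    calc 2 = 2 ^ 1 := (pow_one 2).symm
      _ ≤ 2 ^ S := Nat.pow_le_pow_right (by norm_num) hS
  have h2 : M + 1 ≤ 2 ^ S * 2 ^ S := by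
    calc M + 1 ≤ 2 ^ S + 2 ^ S := by omega
      _ = 2 ^ S * 2 := by ring
      _ ≤ 2 ^ S * 2 ^ S := Nat.mul_le_mul_left _ h1
  have h3 : 2 ^ S * (M + 1) ^ 2 + 1 ≤ (2 ^ S) ^ 6 := by
    have h4 : 2 ^ S * (M + 1) ^ 2 ≤ 2 ^ S * (2 ^ S * 2 ^ S) ^ 2 :=
      Nat.mul_le_mul_left _ (Nat.pow_le_pow_left h2 2)
    have h5 : 2 ^ S * (2 ^ S * 2 ^ S) ^ 2 = (2 ^ S) ^ 5 := by ring
    have h6 : 1 ≤ (2 ^ S) ^ 5 := Nat.one_le_pow _ _ (by omega)
    calc 2 ^ S * (M + 1) ^ 2 + 1 ≤ (2 ^ S) ^ 5 + (2 ^ S) ^ 5 := by omega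
      _ = (2 ^ S) ^ 5 * 2 := by ring
      _ ≤ (2 ^ S) ^ 5 * 2 ^ S := Nat.mul_le_mul_left _ h1
      _ = (2 ^ S) ^ 6 := by ring
  calc (M + 1) * (w * (2 ^ S * (M + 1) ^ 2 + 1))
      ≤ (2 ^ S * 2 ^ S) * (2 ^ S * (2 ^ S) ^ 6) :=
        Nat.mul_le_mul h2 (Nat.mul_le_mul hw h3)
    _ = 2 ^ (9 * S) := by rw [mul_comm 9 S, pow_mul]; ring

theorem result : ∃ C : ℕ, (∀ n ≥ 1, ∃ w ≤ C * n ^ 10, NondetOnePass (langNP n) w) ∧
    (∀ (A : Set (List Bool)) (n S h M T w : ℕ), AtMostPerLength A (2 ^ S) → 1 ≤ S → C ≤ h →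
      C * S * 4 ^ h ≤ n → C * T ^ 2 * Nat.log 2 h ^ 3 ≤ n ^ 2 * h → M ≤ 2 ^ S → w ≤ 2 ^ S →
      ¬ DetO A (langNP n) M T w ∧ ¬ TwoSidedO A (langNP n) M T w ∧
        ¬ OneSidedO A (langNP n) M T w) ∧
    ∃ A : Set (List Bool), ∀ n ≥ 1, DetO A (langNP n) n n 2 := by
  obtain ⟨C, h1, h2⟩ := resultNP
  refine ⟨C + 9, ?_, ?_, oracleOf langNP, fun n hn => detO_oracleOf langNP n hn⟩
  · intro n hn
    obtain ⟨w, hw1, hw2⟩ := h1 n hn
    exact ⟨w, hw1.trans (Nat.mul_le_mul_right _ (Nat.le_add_right _ _)), hw2⟩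
  · intro A n S h M T w hA hS hC hn hT hM hw
    have hn1 : 9 * S * 4 ^ h ≤ n :=
      (Nat.mul_le_mul_right _ (Nat.mul_le_mul_right _ (Nat.le_add_left _ _))).trans hn
    have hn2 : 1 ≤ n := by
      have h3 : 1 ≤ 4 ^ h := Nat.one_le_pow _ _ (by norm_num)
      have h4 : 1 * 1 ≤ 9 * S * 4 ^ h := Nat.mul_le_mul (by omega) h3
      omega
    have hT1 : C * T ^ 2 * Nat.log 2 h ^ 3 ≤ n ^ 2 * h :=
      (Nat.mul_le_mul_right _ (Nat.mul_le_mul_right _ (Nat.le_add_right _ _))).trans hT
    obtain ⟨h3, h4⟩ := h2 n (9 * S) h T _ (by omega) (by omega) hn1 hT1 (width_le hS hM hw)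
    refine ⟨fun h5 => ?_, fun h5 => ?_, fun h5 => ?_⟩
    · exact h3 (twoSided_of_twoSidedO hn2 hA (twoSidedO_of_detO h5))
    · exact h3 (twoSided_of_twoSidedO hn2 hA h5)
    · exact h4 (oneSided_of_oneSidedO hn2 hA h5)

end Pool.Agent.Results.MP_69a69c_lc.SparseTimeSpace
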