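import Pool.Agent.Lib.MP_69a69c_lc.Final4

/-!
# MP_69a69c_lc: tally sets that are complete for NP under polynomial threshold reductions of bounded
degree with arbitrary weights
-/

namespace Pool.Agent.Results.MP_69a69c_lc.WeightedThresholds

open Pool.Agent.SparseNP

/-- If a tally language in NP is complete for NP under polynomial threshold reductions of bounded
degree with arbitrary (exponentially large) weights, then P = NP. -/
theorem result (T : Set ℕ) (hT : InNP (tally T))
    (h : ∀ L : Set (List Bool), InNP L → WeightedReducible T L) :
    ∀ L : Set (List Bool), InNP L → InP L :=
  main4 T hT h

end Pool.Agent.Results.MP_69a69c_lc.WeightedThresholds
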